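import Pool.Agent.Helper72.GP.Goals

/-!
# Project GP (MP_c9dfb5_co), packet BOXC
-/

set_option autoImplicit false

namespace Pool.Agent.Helper80.GP.BoxcAux

open Finset Pool.Agent.Helper72.GP

theorem card_le_of_inj {α β : Type} [Fintype β] (f : α → β) (hf : Function.Injective f) :
    Nat.card α ≤ Fintype.card β := by
  rw [← Nat.card_eq_fintype_card]
  exact Nat.card_le_card_of_injective f hf

/-- The integer relation. -/
theorem rel (R m a b : ℕ) (hR : R.Prime) (hm : 0 < m) (hmR : m < R) (v w : ZMod R) :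
    (R : ℤ) ∣ (b : ℤ) * v.val + a * w.val -
      m * (((m : ℕ) : ZMod R)⁻¹ * ((b : ZMod R) * v + (a : ZMod R) * w)).val := by
  have : Fact R.Prime := ⟨hR⟩
  have : NeZero R := ⟨hR.ne_zero⟩
  rw [← ZMod.intCast_zmod_eq_zero_iff_dvd]
  push_cast
  rw [ZMod.natCast_zmod_val, ZMod.natCast_zmod_val, ZMod.natCast_zmod_val]
  have h0 : (m : ZMod R) ≠ 0 := by
    intro h
    rw [ZMod.natCast_eq_zero_iff] at h
    exact absurd (Nat.le_of_dvd hm h) (by omega)
  rw [mul_inv_cancel_left₀ h0, sub_self]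

end Pool.Agent.Helper80.GP.BoxcAux

namespace Pool.Agent.Helper80.GP

open Finset Pool.Agent.Helper72.GP BoxcAux

theorem boxc : Pool.Agent.Helper72.GP.BOXC := by
  intro R H L a b hR hH hHL hRL ha hb hab hHm hmL hmR
  have : NeZero R := ⟨hR.ne_zero⟩
  obtain ⟨m, hm⟩ : ∃ m, m = a + b := ⟨_, rfl⟩
  rw [← hm] at hHm hmL hmR ⊢
  have hm0 : 0 < m := by omega
  have hL0 : 0 < L := by omega
  have hR0 : 0 < R := hR.pos
  set K := (m - 1) / H with hK
  have hcop : Nat.Coprime m a := by
    rw [hm, Nat.coprime_self_add_left]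
    exact hab.symm
  -- the integer `k`
  have key : ∀ v w : ZMod R, v.val < L → w.val < L →
      (((m : ℕ) : ZMod R)⁻¹ * ((b : ZMod R) * v + (a : ZMod R) * w)).val < L →
      (b : ℤ) * v.val + a * w.val -
        m * (((m : ℕ) : ZMod R)⁻¹ * ((b : ZMod R) * v + (a : ZMod R) * w)).val =
        R * (((b : ℤ) * v.val + a * w.val -
          m * (((m : ℕ) : ZMod R)⁻¹ * ((b : ZMod R) * v + (a : ZMod R) * w)).val) / R) ∧
      -(K : ℤ) ≤ (((b : ℤ) * v.val + a * w.val -
          m * (((m : ℕ) : ZMod R)⁻¹ * ((b : ZMod R) * v + (a : ZMod R) * w)).val) / R) ∧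
      (((b : ℤ) * v.val + a * w.val -
          m * (((m : ℕ) : ZMod R)⁻¹ * ((b : ZMod R) * v + (a : ZMod R) * w)).val) / R) ≤ K := by
    intro v w hv hw hu
    have h1 := (Int.mul_ediv_cancel' (rel R m a b hR hm0 hmR v w)).symm
    set x := (((m : ℕ) : ZMod R)⁻¹ * ((b : ZMod R) * v + (a : ZMod R) * w)).val with hx
    set k := ((b : ℤ) * v.val + a * w.val - m * x) / R with hk
    have hmz : (m : ℤ) = a + b := by exact_mod_cast hm
    have hup : (R : ℤ) * k < m * L := by
      rw [← h1]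
      have e1 : (b : ℤ) * v.val ≤ b * (L - 1) := by
        have : (v.val : ℤ) ≤ L - 1 := by omega
        exact mul_le_mul_of_nonneg_left this (by positivity)
      have e2 : (a : ℤ) * w.val ≤ a * (L - 1) := by
        have : (w.val : ℤ) ≤ L - 1 := by omega
        exact mul_le_mul_of_nonneg_left this (by positivity)
      have e3 : (0 : ℤ) ≤ m * x := by positivity
      have e4 : (0 : ℤ) < m := by exact_mod_cast hm0
      have e5 : (m : ℤ) * L - m = b * (L - 1) + a * (L - 1) := by rw [hmz]; ring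
      linarith
    have hlo : -((m : ℤ) * L) < R * k := by
      rw [← h1]
      have e1 : (0 : ℤ) ≤ b * v.val := by positivity
      have e2 : (0 : ℤ) ≤ a * w.val := by positivity
      have e4 : (0 : ℤ) < m := by exact_mod_cast hm0
      have e3 : (m : ℤ) * x < m * L := by
        have : (x : ℤ) < L := by exact_mod_cast hu
        exact mul_lt_mul_of_pos_left this e4
      linarith
    have hHLz : (H : ℤ) * L ≤ R := by exact_mod_cast hHL
    have hLz : (0 : ℤ) < L := by exact_mod_cast hL0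
    have hHz : (0 : ℤ) < H := by exact_mod_cast hH
    have hb1 : (H : ℤ) * |k| < m := by
      have h2 : (R : ℤ) * |k| < m * L := by
        rcases le_total 0 k with h | h
        · rw [abs_of_nonneg h]
          exact hup
        · rw [abs_of_nonpos h]
          linarith
      have h3 : (H : ℤ) * L * |k| ≤ R * |k| := mul_le_mul_of_nonneg_right hHLz (abs_nonneg _)
      have h4 : (H : ℤ) * |k| * L < m * L := by
        calc (H : ℤ) * |k| * L = H * L * |k| := by ring
          _ < m * L := lt_of_le_of_lt h3 h2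
      exact lt_of_mul_lt_mul_right h4 hLz.le
    have hKb : |k| ≤ (K : ℤ) := by
      have h5 : |k| = (k.natAbs : ℤ) := Int.abs_eq_natAbs k
      rw [h5] at hb1 ⊢
      have h6 : H * k.natAbs < m := by exact_mod_cast hb1
      have h7 : k.natAbs ≤ K := by
        rw [hK, Nat.le_div_iff_mul_le hH, mul_comm]
        omega
      exact_mod_cast h7
    exact ⟨h1, (abs_le.1 hKb).1, (abs_le.1 hKb).2⟩
  have hcard : Nat.card {p : ZMod R × ZMod R // p.1.val < L ∧ p.2.val < L ∧
      (((m : ℕ) : ZMod R)⁻¹ * ((b : ZMod R) * p.1 + (a : ZMod R) * p.2)).val < L} ≤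
      (2 * K + 1) * (L * (L / m + 1)) := by
    let f : {p : ZMod R × ZMod R // p.1.val < L ∧ p.2.val < L ∧
      (((m : ℕ) : ZMod R)⁻¹ * ((b : ZMod R) * p.1 + (a : ZMod R) * p.2)).val < L} →
      Fin (2 * K + 1) × (Fin L × Fin (L / m + 1)) := fun p ↦
      (⟨((((b : ℤ) * p.1.1.val + a * p.1.2.val -
          m * (((m : ℕ) : ZMod R)⁻¹ * ((b : ZMod R) * p.1.1 + (a : ZMod R) * p.1.2)).val) / R) +
          K).toNat, by
        obtain ⟨-, h2, h3⟩ := key p.1.1 p.1.2 p.2.1 p.2.2.1 p.2.2.2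
        omega⟩,
        ⟨p.1.1.val, p.2.1⟩, ⟨p.1.2.val / m, Nat.lt_succ_of_le (Nat.div_le_div_right p.2.2.1.le)⟩)
    have hf : Function.Injective f := by
      rintro ⟨⟨v, w⟩, hp⟩ ⟨⟨v', w'⟩, hp'⟩ h
      simp only [f, Prod.mk.injEq, Fin.mk.injEq] at h hp hp'
      obtain ⟨h1, h2, h3⟩ := h
      obtain ⟨k1, k2, k3⟩ := key v w hp.1 hp.2.1 hp.2.2
      obtain ⟨k1', k2', k3'⟩ := key v' w' hp'.1 hp'.2.1 hp'.2.2
      set x := (((m : ℕ) : ZMod R)⁻¹ * ((b : ZMod R) * v + (a : ZMod R) * w)).val with hx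
      set x' := (((m : ℕ) : ZMod R)⁻¹ * ((b : ZMod R) * v' + (a : ZMod R) * w')).val with hx'
      set k := ((b : ℤ) * v.val + a * w.val - m * x) / R with hk
      set k' := ((b : ℤ) * v'.val + a * w'.val - m * x') / R with hk'
      have h4 : k = k' := by omega
      have h5 : (a : ℤ) * (w.val - w'.val) = m * (x - x') := by
        have : (b : ℤ) * v.val + a * w.val - m * x = (b : ℤ) * v'.val + a * w'.val - m * x' := by
          rw [k1, k1', h4]
        rw [h2] at this
        linarith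
      have h6 : (m : ℤ) ∣ (w.val : ℤ) - w'.val := by
        have h7 : (m : ℤ) ∣ a * ((w.val : ℤ) - w'.val) := ⟨_, h5⟩
        exact (Int.isCoprime_iff_gcd_eq_one.2 (by simpa using hcop)).dvd_of_dvd_mul_left h7
      have h8 : w'.val % m = w.val % m := by
        have := (Int.modEq_iff_dvd.2 h6)
        exact_mod_cast this
      have h9 : w.val = w'.val := by
        rw [← Nat.div_add_mod w.val m, ← Nat.div_add_mod w'.val m, h3, h8]
      rw [Subtype.mk.injEq, Prod.mk.injEq]
      exact ⟨ZMod.val_injective R h2, ZMod.val_injective R h9⟩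
    refine (card_le_of_inj f hf).trans ?_
    rw [Fintype.card_prod, Fintype.card_prod, Fintype.card_fin, Fintype.card_fin,
      Fintype.card_fin]
  have hKH : (2 * K + 1) * H ≤ 3 * m := by
    have h1 : K * H ≤ m - 1 := Nat.div_mul_le_self _ _
    have h2 : (2 * K + 1) * H = 2 * (K * H) + H := by ring
    omega
  have hLm : m * (L / m + 1) ≤ 2 * L := by
    have : m * (L / m) ≤ L := Nat.mul_div_le _ _
    nlinarith
  calc _ ≤ (2 * K + 1) * (L * (L / m + 1)) * (2 * (H * L)) := Nat.mul_le_mul hcard hRL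
    _ = 2 * L ^ 2 * (((2 * K + 1) * H) * (L / m + 1)) := by ring
    _ ≤ 2 * L ^ 2 * ((3 * m) * (L / m + 1)) :=
        Nat.mul_le_mul_left _ (Nat.mul_le_mul_right _ hKH)
    _ = 6 * L ^ 2 * (m * (L / m + 1)) := by ring
    _ ≤ 6 * L ^ 2 * (2 * L) := Nat.mul_le_mul_left _ hLm
    _ = 12 * L ^ 3 := by ring

end Pool.Agent.Helper80.GP
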