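import Pool.Agent.Helper72.GP.Goals

/-!
# Project GP (MP_c9dfb5_co), packet CNT
-/

set_option autoImplicit false

namespace Pool.Agent.Helper80.GP

open Finset Pool.Agent.Helper72.GP

theorem card_le_of_inj {α β : Type} [Fintype β] (f : α → β) (hf : Function.Injective f) :
    Nat.card α ≤ Fintype.card β := by
  rw [← Nat.card_eq_fintype_card]
  exact Nat.card_le_card_of_injective f hf

theorem cnt1 (R L m e : ℕ) (hR : 0 < R) (hm : 0 < m) :
    Nat.card {p : ZMod R × ZMod R // p.1.val < L ∧ p.2.val < L ∧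
      (m : ℤ) ∣ (p.1.val : ℤ) - p.2.val ∧
      |(p.1.val : ℤ) - p.2.val| < m * e} ≤ L * (2 * e) := by
  have : NeZero R := ⟨hR.ne'⟩
  have hmz : (0 : ℤ) < m := by exact_mod_cast hm
  have key : ∀ p : ZMod R × ZMod R, (m : ℤ) ∣ (p.1.val : ℤ) - p.2.val →
      |(p.1.val : ℤ) - p.2.val| < m * e →
      ((p.1.val : ℤ) - p.2.val) = m * (((p.1.val : ℤ) - p.2.val) / m) ∧
      -(e : ℤ) < ((p.1.val : ℤ) - p.2.val) / m ∧ ((p.1.val : ℤ) - p.2.val) / m < e := by
    intro p hd hl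
    have h1 : ((p.1.val : ℤ) - p.2.val) = m * (((p.1.val : ℤ) - p.2.val) / m) :=
      (Int.mul_ediv_cancel' hd).symm
    refine ⟨h1, ?_, ?_⟩
    · rw [abs_lt] at hl
      by_contra hcon
      push Not at hcon
      have := mul_le_mul_of_nonneg_left hcon hmz.le
      rw [← h1] at this
      linarith [hl.1]
    · rw [abs_lt] at hl
      by_contra hcon
      push Not at hcon
      have := mul_le_mul_of_nonneg_left hcon hmz.le
      rw [← h1] at this
      linarith [hl.2]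
  let f : {p : ZMod R × ZMod R // p.1.val < L ∧ p.2.val < L ∧
      (m : ℤ) ∣ (p.1.val : ℤ) - p.2.val ∧
      |(p.1.val : ℤ) - p.2.val| < m * e} → Fin L × Fin (2 * e) := fun p ↦
    (⟨p.1.1.val, p.2.1⟩, ⟨((((p.1.1.val : ℤ) - p.1.2.val) / m) + e).toNat, by
      obtain ⟨-, h2, h3⟩ := key p.1 p.2.2.2.1 p.2.2.2.2
      omega⟩)
  have hf : Function.Injective f := by
    rintro ⟨p, hp⟩ ⟨p', hp'⟩ h
    simp only [f, Prod.mk.injEq, Fin.mk.injEq] at h
    obtain ⟨h1, h2⟩ := h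
    obtain ⟨k1, k2, k3⟩ := key p hp.2.2.1 hp.2.2.2
    obtain ⟨k1', k2', k3'⟩ := key p' hp'.2.2.1 hp'.2.2.2
    have h3 : ((p.1.val : ℤ) - p.2.val) / m = ((p'.1.val : ℤ) - p'.2.val) / m := by omega
    have h4 : (p.1.val : ℤ) - p.2.val = (p'.1.val : ℤ) - p'.2.val := by
      rw [k1, k1', h3]
    have h5 : p.2.val = p'.2.val := by omega
    rw [Subtype.mk.injEq]
    exact Prod.ext (ZMod.val_injective R h1) (ZMod.val_injective R h5)
  refine (card_le_of_inj f hf).trans ?_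
  rw [Fintype.card_prod, Fintype.card_fin, Fintype.card_fin]

theorem cnt2 (R L m : ℕ) (hR : 0 < R) :
    Nat.card {p : ZMod R × ZMod R // p.1.val < L ∧ p.2.val < L ∧
      (m : ℤ) ∣ (p.1.val : ℤ) - p.2.val} ≤ L * (L / m + 1) := by
  have : NeZero R := ⟨hR.ne'⟩
  let f : {p : ZMod R × ZMod R // p.1.val < L ∧ p.2.val < L ∧
      (m : ℤ) ∣ (p.1.val : ℤ) - p.2.val} → Fin L × Fin (L / m + 1) := fun p ↦
    (⟨p.1.1.val, p.2.1⟩, ⟨p.1.2.val / m, Nat.lt_succ_of_le (Nat.div_le_div_right p.2.2.1.le)⟩)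
  have hf : Function.Injective f := by
    rintro ⟨p, hp⟩ ⟨p', hp'⟩ h
    simp only [f, Prod.mk.injEq, Fin.mk.injEq] at h
    obtain ⟨h1, h2⟩ := h
    have e1 : p.2.val % m = p.1.val % m := by
      have := (Int.modEq_iff_dvd.2 hp.2.2)
      exact_mod_cast this
    have e2 : p'.2.val % m = p'.1.val % m := by
      have := (Int.modEq_iff_dvd.2 hp'.2.2)
      exact_mod_cast this
    have h5 : p.2.val = p'.2.val := by
      rw [← Nat.div_add_mod p.2.val m, ← Nat.div_add_mod p'.2.val m, h2, e1, e2, h1]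
    rw [Subtype.mk.injEq]
    exact Prod.ext (ZMod.val_injective R h1) (ZMod.val_injective R h5)
  refine (card_le_of_inj f hf).trans ?_
  rw [Fintype.card_prod, Fintype.card_fin, Fintype.card_fin]

theorem cnt : Pool.Agent.Helper72.GP.CNT := by
  intro R L m e hR hm _
  exact ⟨cnt1 R L m e hR hm, cnt2 R L m hR⟩

end Pool.Agent.Helper80.GP
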