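import Pool.Agent.Helper72.GP.Goals

/-!
# Project GP (MP_c9dfb5_co), packet W2
-/

set_option autoImplicit false

namespace Pool.Agent.Helper80.GP.W2Aux

open Finset Pool.Agent.Helper72.GP

theorem card_le_of_inj {α β : Type} [Fintype β] (f : α → β) (hf : Function.Injective f) :
    Nat.card α ≤ Fintype.card β := by
  rw [← Nat.card_eq_fintype_card]
  exact Nat.card_le_card_of_injective f hf

theorem fq_sub {M : ℕ} (c c' : O2 M) (U : Fin 8 → ℕ) :
    Fq c U - Fq c' U = (c.1 - c'.1) + ∑ k, (c.2 k - c'.2 k) * (U k : ZMod M) := by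
  unfold Fq
  simp only [sub_mul, Finset.sum_sub_distrib]
  ring

/-- functions outside a set -/
theorem card_fun (M : ℕ) [NeZero M] (s : Finset (Fin 8)) :
    Fintype.card ({k : Fin 8 // k ∉ s} → ZMod M) = M ^ (8 - s.card) := by
  rw [Fintype.card_fun, ZMod.card, Fintype.card_subtype]
  congr 1
  have : (univ.filter fun k : Fin 8 ↦ k ∉ s) = sᶜ := by
    ext k
    simp
  rw [this, Finset.card_compl, Fintype.card_fin]

end Pool.Agent.Helper80.GP.W2Aux

namespace Pool.Agent.Helper80.GP

open Finset Pool.Agent.Helper72.GP W2Aux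

theorem w2 : Pool.Agent.Helper72.GP.W2 := by
  intro M E hM hEM
  have : Fact M.Prime := ⟨hM⟩
  have : NeZero M := ⟨hM.ne_zero⟩
  refine ⟨?_, ?_, ?_⟩
  · intro U
    let f : {c : O2 M // (Fq c U).val < E} → (Fin 8 → ZMod M) × Fin E :=
      fun c ↦ (c.1.2, ⟨(Fq c.1 U).val, c.2⟩)
    have hf : Function.Injective f := by
      rintro ⟨c, hc⟩ ⟨c', hc'⟩ h
      simp only [f, Prod.mk.injEq, Fin.mk.injEq] at h
      obtain ⟨h1, h2⟩ := h
      have h3 := fq_sub c c' U
      rw [ZMod.val_injective M h2, sub_self, h1] at h3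
      simp only [sub_self, zero_mul, Finset.sum_const_zero, add_zero] at h3
      rw [Subtype.mk.injEq]
      exact Prod.ext (sub_eq_zero.1 h3.symm) h1
    refine (card_le_of_inj f hf).trans ?_
    rw [Fintype.card_prod, Fintype.card_fin, Fintype.card_fun, ZMod.card, Fintype.card_fin]
  · rintro U V ⟨i, hi⟩
    let f : {c : O2 M // (Fq c U).val < E ∧ (Fq c V).val < E} →
        ({k : Fin 8 // k ∉ ({i} : Finset (Fin 8))} → ZMod M) × (Fin E × Fin E) :=
      fun c ↦ (fun k ↦ c.1.2 k.1, ⟨(Fq c.1 U).val, c.2.1⟩, ⟨(Fq c.1 V).val, c.2.2⟩)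
    have hf : Function.Injective f := by
      rintro ⟨c, hc⟩ ⟨c', hc'⟩ h
      simp only [f, Prod.mk.injEq, Fin.mk.injEq] at h
      obtain ⟨h0, h1, h2⟩ := h
      have hk : ∀ k, k ≠ i → c.2 k = c'.2 k := fun k hk ↦
        congrFun h0 ⟨k, by simpa using hk⟩
      have hs : ∀ W : Fin 8 → ℕ, ∑ k, (c.2 k - c'.2 k) * (W k : ZMod M) =
          (c.2 i - c'.2 i) * W i := by
        intro W
        rw [Finset.sum_eq_single i]
        · intro k _ hki
          rw [hk k hki, sub_self, zero_mul]
        · intro h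
          exact absurd (mem_univ i) h
      have h3 := fq_sub c c' U
      have h4 := fq_sub c c' V
      rw [ZMod.val_injective M h1, sub_self, hs] at h3
      rw [ZMod.val_injective M h2, sub_self, hs] at h4
      have h5 : (c.2 i - c'.2 i) * ((U i : ZMod M) - V i) = 0 := by
        linear_combination h4 - h3
      have h6 : c.2 i - c'.2 i = 0 := by
        rcases mul_eq_zero.1 h5 with h | h
        · exact h
        · exact absurd (sub_eq_zero.1 h) hi
      rw [h6, zero_mul, add_zero] at h3
      rw [Subtype.mk.injEq]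
      refine Prod.ext (sub_eq_zero.1 h3.symm) (funext fun k ↦ ?_)
      by_cases hki : k = i
      · rw [hki]
        exact sub_eq_zero.1 h6
      · exact hk k hki
    refine (card_le_of_inj f hf).trans ?_
    rw [Fintype.card_prod, Fintype.card_prod, Fintype.card_fin, card_fun,
      Finset.card_singleton]
    exact le_of_eq (by ring)
  · rintro U1 U2 U3 ⟨i, j, hij⟩
    have hne : i ≠ j := by
      rintro rfl
      exact hij (by ring)
    let f : {c : O2 M // (Fq c U1).val < E ∧ (Fq c U2).val < E ∧ (Fq c U3).val < E} →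
        ({k : Fin 8 // k ∉ ({i, j} : Finset (Fin 8))} → ZMod M) × (Fin E × Fin E × Fin E) :=
      fun c ↦ (fun k ↦ c.1.2 k.1, ⟨(Fq c.1 U1).val, c.2.1⟩, ⟨(Fq c.1 U2).val, c.2.2.1⟩,
        ⟨(Fq c.1 U3).val, c.2.2.2⟩)
    have hf : Function.Injective f := by
      rintro ⟨c, hc⟩ ⟨c', hc'⟩ h
      simp only [f, Prod.mk.injEq, Fin.mk.injEq] at h
      obtain ⟨h0, h1, h2, h3⟩ := h
      have hk : ∀ k, k ≠ i → k ≠ j → c.2 k = c'.2 k := fun k hk hk' ↦
        congrFun h0 ⟨k, by simp [hk, hk']⟩
      have hs : ∀ W : Fin 8 → ℕ, ∑ k, (c.2 k - c'.2 k) * (W k : ZMod M) =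
          (c.2 i - c'.2 i) * W i + (c.2 j - c'.2 j) * W j := by
        intro W
        refine Finset.sum_eq_add i j hne ?_ ?_ ?_
        · rintro k _ ⟨hki, hkj⟩
          rw [hk k hki hkj, sub_self, zero_mul]
        · intro h
          exact absurd (mem_univ i) h
        · intro h
          exact absurd (mem_univ j) h
      have e1 := fq_sub c c' U1
      have e2 := fq_sub c c' U2
      have e3 := fq_sub c c' U3
      rw [ZMod.val_injective M h1, sub_self, hs] at e1
      rw [ZMod.val_injective M h2, sub_self, hs] at e2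
      rw [ZMod.val_injective M h3, sub_self, hs] at e3
      set x := c.2 i - c'.2 i with hx
      set y := c.2 j - c'.2 j with hy
      have f1 : x * ((U1 i : ZMod M) - U2 i) + y * ((U1 j : ZMod M) - U2 j) = 0 := by
        linear_combination e2 - e1
      have f3 : x * ((U3 i : ZMod M) - U2 i) + y * ((U3 j : ZMod M) - U2 j) = 0 := by
        linear_combination e2 - e3
      have hdet : ((U1 i : ZMod M) - U2 i) * ((U3 j : ZMod M) - U2 j) -
          ((U1 j : ZMod M) - U2 j) * ((U3 i : ZMod M) - U2 i) ≠ 0 := sub_ne_zero.2 hij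
      have gx : x = 0 := by
        have : x * (((U1 i : ZMod M) - U2 i) * ((U3 j : ZMod M) - U2 j) -
          ((U1 j : ZMod M) - U2 j) * ((U3 i : ZMod M) - U2 i)) = 0 := by
          linear_combination ((U3 j : ZMod M) - U2 j) * f1 - ((U1 j : ZMod M) - U2 j) * f3
        exact (mul_eq_zero.1 this).resolve_right hdet
      have gy : y = 0 := by
        have : y * (((U1 i : ZMod M) - U2 i) * ((U3 j : ZMod M) - U2 j) -
          ((U1 j : ZMod M) - U2 j) * ((U3 i : ZMod M) - U2 i)) = 0 := by
          linear_combination ((U1 i : ZMod M) - U2 i) * f3 - ((U3 i : ZMod M) - U2 i) * f1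
        exact (mul_eq_zero.1 this).resolve_right hdet
      rw [gx, gy, zero_mul, zero_mul, add_zero, add_zero] at e1
      rw [Subtype.mk.injEq]
      refine Prod.ext (sub_eq_zero.1 e1.symm) (funext fun k ↦ ?_)
      by_cases hki : k = i
      · rw [hki]
        exact sub_eq_zero.1 gx
      · by_cases hkj : k = j
        · rw [hkj]
          exact sub_eq_zero.1 gy
        · exact hk k hki hkj
    refine (card_le_of_inj f hf).trans ?_
    rw [Fintype.card_prod, Fintype.card_prod, Fintype.card_prod, Fintype.card_fin, card_fun,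
      Finset.card_pair hne]
    exact le_of_eq (by ring)

end Pool.Agent.Helper80.GP
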